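import Mathlib

/-!
# Runs of good points in a finite set of reals

`S` is a finite set of reals in `(a, b]`, `G ⊆ S` the set of good points.  The number of good points
that start a run of `m + 1` consecutive points of `S`, all good, of total length at most `L`, is at
least `|G| - m (|S \ G| + 1) - m (b - a) / L`.
-/

namespace Pool.Agent.TH299.Runs

open Finset

/-- `t` starts a run of `m + 1` consecutive elements of `S`, all of them in `G`, of total length at most `L` -/
def Starts (S G : Set ℝ) (m : ℕ) (L : ℝ) (t : ℝ) : Prop :=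
  ∃ u : Fin (m + 1) → ℝ, StrictMono u ∧ u 0 = t ∧ (∀ j, u j ∈ G) ∧
    (∀ s ∈ S, u 0 ≤ s → s ≤ u (Fin.last m) → ∃ j, u j = s) ∧ u (Fin.last m) - u 0 ≤ L

lemma sum_diff_le (f : ℕ → ℝ) (a b : ℝ) (ha : ∀ i, a ≤ f i) (hb : ∀ i, f i ≤ b) (n m : ℕ) :
    ∑ i ∈ range n, (f (i + m) - f i) ≤ m * (b - a) := by
  induction m with
  | zero => simp
  | succ m ih =>
    have h1 : ∀ i, f (i + (m + 1)) - f i = (f (i + 1 + m) - f (i + m)) + (f (i + m) - f i) := by
      intro i
      rw [show i + (m + 1) = i + 1 + m by ring]; ring
    rw [Finset.sum_congr rfl fun i _ => h1 i, Finset.sum_add_distrib,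
      Finset.sum_range_sub (fun i => f (i + m)) n]
    have h2 := hb (n + m)
    have h3 := ha (0 + m)
    push_cast
    linarith

/-- the index version -/
lemma count_index (f : ℕ → ℝ) (hf : Monotone f) (a b : ℝ) (ha : ∀ i, a ≤ f i) (hb : ∀ i, f i ≤ b)
    (n m : ℕ) (P : ℕ → Prop) [DecidablePred P] (L : ℝ) (hL : 0 < L) :
    (((range n).filter P).card : ℝ) - m * ((((range n).filter fun i => ¬ P i).card : ℝ) + 1)
      - m * (b - a) / L ≤
    (((range n).filter fun i => (i + m < n) ∧ (∀ j, j ≤ m → P (i + j)) ∧ f (i + m) - f i ≤ L).card : ℝ) := by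
  classical
  set A := (range n).filter P
  set B := (range n).filter fun i => ¬ P i
  set R := (range n).filter fun i => (i + m < n) ∧ (∀ j, j ≤ m → P (i + j)) ∧ f (i + m) - f i ≤ L
  set E := (range n).filter fun i => n ≤ i + m
  set D := fun j : ℕ => (range n).filter fun i => (i + j) ∈ B
  set Q := (range n).filter fun i => L < f (i + m) - f i
  have hcover : A ⊆ R ∪ (E ∪ ((Finset.Icc 1 m).biUnion D ∪ Q)) := by
    intro i hi
    simp only [A, mem_filter, mem_range] at hi
    simp only [R, E, D, Q, B, mem_union, mem_biUnion, mem_filter, mem_range, mem_Icc]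
    by_cases h1 : n ≤ i + m
    · right; left; exact ⟨hi.1, h1⟩
    · push Not at h1
      by_cases h2 : ∀ j, j ≤ m → P (i + j)
      · by_cases h3 : f (i + m) - f i ≤ L
        · left; exact ⟨hi.1, h1, h2, h3⟩
        · right; right; right; exact ⟨hi.1, lt_of_not_ge h3⟩
      · push Not at h2
        obtain ⟨j, hj1, hj2⟩ := h2
        right; right; left
        refine ⟨j, ⟨?_, hj1⟩, hi.1, by omega, hj2⟩
        rcases Nat.eq_zero_or_pos j with h | h
        · subst h; exact absurd hi.2 hj2
        · exact h
  have hE : E.card ≤ m := by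
    have : E ⊆ Finset.Ico (n - m) n := by
      intro i hi
      simp only [E, mem_filter, mem_range] at hi
      rw [mem_Ico]; omega
    calc E.card ≤ (Finset.Ico (n - m) n).card := card_le_card this
      _ ≤ m := by rw [Nat.card_Ico]; omega
  have hD : ∀ j, (D j).card ≤ B.card := by
    intro j
    refine Finset.card_le_card_of_injOn (fun i => i + j) ?_ ?_
    · intro i hi
      simp only [D, coe_filter, Set.mem_ofPred_eq] at hi
      exact hi.2
    · intro i _ i' _ h
      simpa using h
  have hDD : ((Finset.Icc 1 m).biUnion D).card ≤ m * B.card := by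
    refine (card_biUnion_le).trans ?_
    refine (Finset.sum_le_sum fun j _ => hD j).trans ?_
    simp
  have hQ : (Q.card : ℝ) ≤ m * (b - a) / L := by
    rw [le_div_iff₀ hL]
    have h1 : (Q.card : ℝ) * L = ∑ i ∈ Q, L := by simp
    rw [h1]
    calc ∑ i ∈ Q, L ≤ ∑ i ∈ Q, (f (i + m) - f i) := by
          refine Finset.sum_le_sum fun i hi => ?_
          simp only [Q, mem_filter] at hi
          exact hi.2.le
      _ ≤ ∑ i ∈ range n, (f (i + m) - f i) := by
          refine Finset.sum_le_sum_of_subset_of_nonneg (Finset.filter_subset _ _) fun i _ _ => ?_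
          exact sub_nonneg.mpr (hf (Nat.le_add_right _ _))
      _ ≤ m * (b - a) := sum_diff_le f a b ha hb n m
  have h1 : A.card ≤ R.card + (E.card + (((Finset.Icc 1 m).biUnion D).card + Q.card)) := by
    refine (card_le_card hcover).trans ?_
    refine (card_union_le _ _).trans ?_
    gcongr
    refine (card_union_le _ _).trans ?_
    gcongr
    exact card_union_le _ _
  have h2 : (A.card : ℝ) ≤ R.card + (m + (m * B.card + Q.card)) := by
    have : (A.card : ℝ) ≤ R.card + (E.card + (((Finset.Icc 1 m).biUnion D).card + Q.card)) := by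
      exact_mod_cast h1
    have h3 : (E.card : ℝ) ≤ m := by exact_mod_cast hE
    have h4 : (((Finset.Icc 1 m).biUnion D).card : ℝ) ≤ m * B.card := by exact_mod_cast hDD
    linarith
  linarith

/-- **counting runs** -/
theorem count (S G : Finset ℝ) (hG : G ⊆ S) (a b : ℝ) (hS : ∀ s ∈ S, a < s ∧ s ≤ b) (hab : a ≤ b)
    (m : ℕ) (L : ℝ) (hL : 0 < L) :
    (G.card : ℝ) - m * (((S \ G).card : ℝ) + 1) - m * (b - a) / L ≤
      ({t : ℝ | Starts (S : Set ℝ) (G : Set ℝ) m L t}.ncard : ℝ) := by
  classical
  set n := S.card with hn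
  set e := S.orderEmbOfFin hn.symm with he
  have hmem : ∀ i, e i ∈ S := fun i => Finset.orderEmbOfFin_mem S hn.symm i
  set f : ℕ → ℝ := fun i => if h : i < n then e ⟨i, h⟩ else b with hf
  have hfi : ∀ (i : ℕ) (h : i < n), f i = e ⟨i, h⟩ := fun i h => by simp [hf, h]
  have hmono : Monotone f := by
    intro i j hij
    by_cases hj : j < n
    · have hi : i < n := lt_of_le_of_lt hij hj
      rw [hfi i hi, hfi j hj]
      exact e.monotone (by simpa using hij)
    · have : f j = b := by simp [hf, hj]
      rw [this]
      by_cases hi : i < n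
      · rw [hfi i hi]; exact (hS _ (hmem _)).2
      · simp [hf, hi]
  have ha : ∀ i, a ≤ f i := by
    intro i
    by_cases hi : i < n
    · rw [hfi i hi]; exact (hS _ (hmem _)).1.le
    · simp [hf, hi, hab]
  have hb : ∀ i, f i ≤ b := by
    intro i
    by_cases hi : i < n
    · rw [hfi i hi]; exact (hS _ (hmem _)).2
    · simp [hf, hi]
  have hinj : Set.InjOn f (Set.Iio n) := by
    intro i hi j hj h
    rw [hfi i hi, hfi j hj] at h
    exact congrArg Fin.val (e.injective h)
  have hsurj : ∀ s ∈ S, ∃ i, i < n ∧ f i = s := by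
    intro s hs
    have : s ∈ Set.range e := by
      rw [he, Finset.range_orderEmbOfFin]; exact hs
    obtain ⟨i, hi⟩ := this
    exact ⟨i, i.2, by rw [hfi i i.2]; exact hi⟩
  have key := count_index f hmono a b ha hb n m (fun i => f i ∈ G) L hL
  have hA : ((range n).filter fun i => f i ∈ G).card = G.card := by
    refine Finset.card_bij (fun i _ => f i) ?_ ?_ ?_
    · intro i hi; exact (mem_filter.mp hi).2
    · intro i hi j hj h
      exact hinj (by simpa using (mem_filter.mp hi).1) (by simpa using (mem_filter.mp hj).1) h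
    · intro s hs
      obtain ⟨i, hi, h⟩ := hsurj s (hG hs)
      exact ⟨i, mem_filter.mpr ⟨mem_range.mpr hi, by rw [h]; exact hs⟩, h⟩
  have hB : ((range n).filter fun i => ¬ f i ∈ G).card = (S \ G).card := by
    refine Finset.card_bij (fun i _ => f i) ?_ ?_ ?_
    · intro i hi
      have h1 := mem_filter.mp hi
      rw [mem_sdiff]
      refine ⟨?_, h1.2⟩
      rw [hfi i (mem_range.mp h1.1)]; exact hmem _
    · intro i hi j hj h
      exact hinj (by simpa using (mem_filter.mp hi).1) (by simpa using (mem_filter.mp hj).1) h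
    · intro s hs
      rw [mem_sdiff] at hs
      obtain ⟨i, hi, h⟩ := hsurj s hs.1
      exact ⟨i, mem_filter.mpr ⟨mem_range.mpr hi, by rw [h]; exact hs.2⟩, h⟩
  rw [hA, hB] at key
  refine key.trans ?_
  have hfin : {t : ℝ | Starts (S : Set ℝ) (G : Set ℝ) m L t}.Finite := by
    refine G.finite_toSet.subset ?_
    rintro t ⟨u, -, h0, hu, -⟩
    rw [← h0]; exact hu 0
  have hle : ((range n).filter fun i => (i + m < n) ∧ (∀ j, j ≤ m → f (i + j) ∈ G) ∧
      f (i + m) - f i ≤ L).card ≤ {t : ℝ | Starts (S : Set ℝ) (G : Set ℝ) m L t}.ncard := by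
    rw [← Set.ncard_coe_finset]
    refine Set.ncard_le_ncard_of_injOn f ?_ ?_ hfin
    · intro i hi
      simp only [coe_filter, Set.mem_ofPred_eq, mem_range] at hi
      obtain ⟨hi, him, hP, hlen⟩ := hi
      refine ⟨fun j => f (i + j), ?_, by simp, ?_, ?_, ?_⟩
      · intro j j' hjj
        have h1 : i + (j : ℕ) < n := by have := j.2; omega
        have h2 : i + (j' : ℕ) < n := by have := j'.2; omega
        show f (i + j) < f (i + j')
        rw [hfi _ h1, hfi _ h2]
        apply e.strictMono
        rw [Fin.lt_def] at hjj ⊢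
        simpa using hjj
      · intro j
        exact hP j (by have := j.2; omega)
      · intro s hs h1 h2
        obtain ⟨l, hl, hfl⟩ := hsurj s hs
        have h3 : i ≤ l := by
          by_contra h
          push Not at h
          have h4 : f l < f i := by
            rw [hfi _ hl, hfi _ hi]
            exact e.strictMono (by simpa using h)
          simp at h1
          linarith
        have h5 : l ≤ i + m := by
          by_contra h
          push Not at h
          have h4 : f (i + m) < f l := by
            rw [hfi _ hl, hfi _ him]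
            exact e.strictMono (by simpa using h)
          simp at h2
          linarith
        refine ⟨⟨l - i, by omega⟩, ?_⟩
        show f (i + (l - i)) = s
        rw [show i + (l - i) = l by omega, hfl]
      · simpa using hlen
    · intro i hi j hj h
      simp only [coe_filter, Set.mem_ofPred_eq, mem_range] at hi hj
      exact hinj hi.1 hj.1 h
  exact_mod_cast hle

end Pool.Agent.TH299.Runs
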