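import Pool.Agent.TH299.Runs
import Pool.Agent.H370R2.Dyadic

/-!
# Runs of simple critical zeros of an L-function of degree one
-/

open Complex Filter Topology Finset

namespace Pool.Agent.TH299.RunsL

open H370 Runs

/-- `t` is the first of `m + 1` consecutive ordinates of zeros in `(a, b]`, at each of which `F` has a
simple zero on the critical line, the total length being at most `L` -/
def RunA (F : ℂ → ℂ) (m : ℕ) (L a b t : ℝ) : Prop :=
  ∃ u : Fin (m + 1) → ℝ, StrictMono u ∧ u 0 = t ∧ a < u 0 ∧ u (Fin.last m) ≤ b ∧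
    (∀ j, F (1 / 2 + I * u j) = 0 ∧ mult F (1 / 2 + I * u j) = 1) ∧
    (∀ s : ℂ, F s = 0 → 0 < s.re → s.re < 1 → u 0 ≤ s.im → s.im ≤ u (Fin.last m) →
      ∃ j, s.im = u j) ∧ u (Fin.last m) - u 0 ≤ L

/-- the same, and there is no other zero with ordinate in `[u 0, u m]` -/
def RunB (F : ℂ → ℂ) (m : ℕ) (L a b t : ℝ) : Prop :=
  ∃ u : Fin (m + 1) → ℝ, StrictMono u ∧ u 0 = t ∧ a < u 0 ∧ u (Fin.last m) ≤ b ∧
    (∀ j, F (1 / 2 + I * u j) = 0 ∧ mult F (1 / 2 + I * u j) = 1) ∧
    (∀ s : ℂ, F s = 0 → 0 < s.re → s.re < 1 → u 0 ≤ s.im → s.im ≤ u (Fin.last m) →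
      ∃ j, s = 1 / 2 + I * u j) ∧ u (Fin.last m) - u 0 ≤ L

variable {F : ℂ → ℂ}

/-- the multiplicity of an ordinate -/
noncomputable def M (F : ℂ → ℂ) (Z : Finset ℂ) (γ : ℝ) : ℕ := ∑ s ∈ Z with s.im = γ, mult F s

lemma half_re (x : ℝ) : (1 / 2 + I * (x : ℂ)).re = 1 / 2 := by simp

lemma half_im (x : ℝ) : (1 / 2 + I * (x : ℂ)).im = x := by simp

lemma eq_half {s : ℂ} (h : s.re = 1 / 2) : s = 1 / 2 + I * (s.im : ℂ) := by
  apply Complex.ext
  · rw [half_re, h]
  · rw [half_im]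

lemma card_ite {A S : Finset ℝ} (h : A ⊆ S) : A.card = ∑ γ ∈ S, (if γ ∈ A then 1 else 0) := by
  classical
  rw [← Finset.card_filter, Finset.filter_mem_eq_inter, Finset.inter_eq_right.mpr h]

lemma card_sdiff_ite (S A : Finset ℝ) : (S \ A).card = ∑ γ ∈ S, (if γ ∈ A then 0 else 1) := by
  classical
  rw [Finset.sdiff_eq_filter, Finset.card_filter]
  refine Finset.sum_congr rfl fun γ _ => ?_
  by_cases h : γ ∈ A <;> simp [h]

lemma core (hF : GoodL F) {a b : ℝ} (ha : 1 ≤ a) :
    ∃ S GA GB : Finset ℝ, (∀ γ : ℝ, γ ∈ S ↔ ∃ s ∈ zset F a b, s.im = γ) ∧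
      (∀ γ : ℝ, γ ∈ GA ↔ (1 / 2 + I * (γ : ℂ)) ∈ zset F a b ∧ mult F (1 / 2 + I * γ) = 1) ∧
      (∀ γ : ℝ, γ ∈ GB ↔ γ ∈ GA ∧ ∀ s ∈ zset F a b, s.im = γ → s = 1 / 2 + I * γ) ∧
      GA ⊆ S ∧ GB ⊆ GA ∧ GA.card = Ns F a b ∧ Ns F a b + 2 * (S \ GB).card ≤ NN F a b := by
  classical
  have hfin := zset_finite hF a b ha
  set Z := hfin.toFinset with hZ
  have hmem : ∀ s, s ∈ Z ↔ s ∈ zset F a b := fun s => by rw [hZ, Set.Finite.mem_toFinset]
  set S := Z.image (fun s => s.im) with hS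
  set GA : Finset ℝ := S.filter fun γ : ℝ => (1 / 2 + I * (γ : ℂ)) ∈ zset F a b ∧
    mult F (1 / 2 + I * (γ : ℂ)) = 1 with hGA
  set GB : Finset ℝ := GA.filter fun γ : ℝ => ∀ s ∈ zset F a b, s.im = γ → s = 1 / 2 + I * (γ : ℂ) with hGB
  have hSm : ∀ γ : ℝ, γ ∈ S ↔ ∃ s ∈ zset F a b, s.im = γ := by
    intro γ
    rw [hS, Finset.mem_image]
    constructor
    · rintro ⟨s, hs, h⟩; exact ⟨s, (hmem s).mp hs, h⟩
    · rintro ⟨s, hs, h⟩; exact ⟨s, (hmem s).mpr hs, h⟩
  have hGAm : ∀ γ : ℝ, γ ∈ GA ↔ (1 / 2 + I * (γ : ℂ)) ∈ zset F a b ∧ mult F (1 / 2 + I * γ) = 1 := by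
    intro γ
    rw [hGA, Finset.mem_filter]
    refine ⟨fun h => h.2, fun h => ⟨?_, h⟩⟩
    rw [hSm]
    exact ⟨_, h.1, half_im γ⟩
  have hGBm : ∀ γ : ℝ, γ ∈ GB ↔ γ ∈ GA ∧ ∀ s ∈ zset F a b, s.im = γ → s = 1 / 2 + I * γ := by
    intro γ
    rw [hGB, Finset.mem_filter]
  have hcard : GA.card = Ns F a b := by
    unfold Ns
    rw [← Set.ncard_coe_finset]
    refine Set.ncard_congr (fun γ _ => (1 / 2 + I * (γ : ℂ))) ?_ ?_ ?_
    · intro γ hγ
      have := (hGAm γ).mp hγ
      exact ⟨this.1, half_re γ, this.2⟩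
    · intro γ γ' _ _ h
      have := congrArg Complex.im h
      rwa [half_im, half_im] at this
    · rintro s ⟨h1, h2, h3⟩
      refine ⟨s.im, ?_, (eq_half h2).symm⟩
      have h4 := eq_half h2
      show s.im ∈ GA
      rw [hGAm, ← h4]
      exact ⟨h1, h3⟩
  refine ⟨S, GA, GB, hSm, hGAm, hGBm, Finset.filter_subset _ _, Finset.filter_subset _ _, hcard, ?_⟩
  -- the count
  have hpos : ∀ s ∈ Z, 1 ≤ mult F s := by
    intro s hs
    have := (hmem s).mp hs
    exact Loc.mult_pos' hF (by linarith [this.2.2.1]) this.2.2.2.2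
  have hrefl : ∀ s ∈ zset F a b, (1 - (starRingEnd ℂ) s) ∈ zset F a b := by
    rintro s ⟨h1, h2, h3, h4, h5⟩
    have him : (1 - (starRingEnd ℂ) s).im = s.im := by simp
    have hre : (1 - (starRingEnd ℂ) s).re = 1 - s.re := by simp
    refine ⟨by rw [hre]; linarith, by rw [hre]; linarith, by rw [him]; exact h3,
      by rw [him]; exact h4, ?_⟩
    have hA : AnalyticAt ℂ F s := hF.an s (by linarith)
    have hB : AnalyticAt ℂ F (1 - (starRingEnd ℂ) s) := hF.an _ (by rw [him]; linarith)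
    have h6 := hF.symm s h1 h2 (by linarith)
    have h7 : analyticOrderAt F s ≠ 0 := hA.analyticOrderAt_ne_zero.mpr h5
    rw [← h6] at h7
    exact hB.analyticOrderAt_ne_zero.mp h7
  have hNN : NN F a b = ∑ γ ∈ S, M F Z γ := by
    rw [NN_eq_sum hF a b ha]
    unfold M
    rw [← hZ]
    exact (Finset.sum_fiberwise_of_maps_to (fun s hs => Finset.mem_image_of_mem _ hs) _).symm
  have hkey : ∀ γ ∈ S, (if γ ∈ GA then 1 else 0) + 2 * (if γ ∈ GB then 0 else 1) ≤ M F Z γ := by
    intro γ hγ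
    obtain ⟨s, hs, him⟩ := (hSm γ).mp hγ
    by_cases hB : γ ∈ GB
    · have hA : γ ∈ GA := ((hGBm γ).mp hB).1
      rw [if_pos hB, if_pos hA]
      have h1 : s ∈ Z.filter fun s => s.im = γ := Finset.mem_filter.mpr ⟨(hmem s).mpr hs, him⟩
      have h2 : mult F s ≤ M F Z γ := Finset.single_le_sum (f := fun s => mult F s)
        (fun _ _ => Nat.zero_le _) h1
      have := hpos s ((hmem s).mpr hs)
      omega
    · rw [if_neg hB]
      by_cases hA : γ ∈ GA
      · rw [if_pos hA]
        have hA' := (hGAm γ).mp hA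
        have hnot : ¬ ∀ s ∈ zset F a b, s.im = γ → s = 1 / 2 + I * γ := fun h =>
          hB ((hGBm γ).mpr ⟨hA, h⟩)
        push Not at hnot
        obtain ⟨s1, hs1, him1, hne⟩ := hnot
        have hre1 : s1.re ≠ 1 / 2 := by
          intro h
          apply hne
          rw [← him1]; exact eq_half h
        set s2 := 1 - (starRingEnd ℂ) s1 with hs2
        have hs2m := hrefl s1 hs1
        have him2 : s2.im = γ := by rw [hs2, ← him1]; simp
        have hre2 : s2.re = 1 - s1.re := by rw [hs2]; simp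
        set s0 : ℂ := 1 / 2 + I * γ with hs0
        have h01 : s0 ≠ s1 := fun h => hne h.symm
        have h02 : s0 ≠ s2 := by
          intro h
          apply hre1
          have := congrArg Complex.re h
          rw [hs0, half_re, hre2] at this
          linarith
        have h12 : s1 ≠ s2 := by
          intro h
          apply hre1
          have := congrArg Complex.re h
          rw [hre2] at this
          linarith
        have hsub : ({s0, s1, s2} : Finset ℂ) ⊆ Z.filter fun s => s.im = γ := by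
          intro x hx
          simp only [Finset.mem_insert, Finset.mem_singleton] at hx
          rcases hx with rfl | rfl | rfl
          · exact Finset.mem_filter.mpr ⟨(hmem _).mpr hA'.1, half_im γ⟩
          · exact Finset.mem_filter.mpr ⟨(hmem _).mpr hs1, him1⟩
          · exact Finset.mem_filter.mpr ⟨(hmem _).mpr hs2m, him2⟩
        have hcard3 : ({s0, s1, s2} : Finset ℂ).card = 3 := by
          rw [Finset.card_insert_of_notMem (by simp [h01, h02]),
            Finset.card_insert_of_notMem (by simp [h12]), Finset.card_singleton]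
        have h3 : ∑ x ∈ ({s0, s1, s2} : Finset ℂ), 1 ≤ M F Z γ := by
          unfold M
          calc ∑ x ∈ ({s0, s1, s2} : Finset ℂ), 1 ≤ ∑ x ∈ ({s0, s1, s2} : Finset ℂ), mult F x :=
                Finset.sum_le_sum fun x hx => hpos x (Finset.mem_filter.mp (hsub hx)).1
            _ ≤ _ := Finset.sum_le_sum_of_subset_of_nonneg hsub fun _ _ _ => Nat.zero_le _
        rw [Finset.sum_const, hcard3] at h3
        simpa using h3
      · rw [if_neg hA]
        -- no simple critical zero at this ordinate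
        have h1 : s ∈ Z.filter fun s => s.im = γ := Finset.mem_filter.mpr ⟨(hmem s).mpr hs, him⟩
        by_cases hre : s.re = 1 / 2
        · have h2 : mult F s ≤ M F Z γ := Finset.single_le_sum (f := fun s => mult F s)
            (fun _ _ => Nat.zero_le _) h1
          have h3 := hpos s ((hmem s).mpr hs)
          have h4 : mult F s ≠ 1 := by
            intro h
            apply hA
            rw [hGAm, ← him, ← eq_half hre]
            exact ⟨hs, h⟩
          omega
        · set s2 := 1 - (starRingEnd ℂ) s with hs2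
          have hs2m := hrefl s hs
          have him2 : s2.im = γ := by rw [hs2, ← him]; simp
          have hre2 : s2.re = 1 - s.re := by rw [hs2]; simp
          have h12 : s ≠ s2 := by
            intro h
            apply hre
            have := congrArg Complex.re h
            rw [hre2] at this
            linarith
          have hsub : ({s, s2} : Finset ℂ) ⊆ Z.filter fun s => s.im = γ := by
            intro x hx
            simp only [Finset.mem_insert, Finset.mem_singleton] at hx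
            rcases hx with rfl | rfl
            · exact h1
            · exact Finset.mem_filter.mpr ⟨(hmem _).mpr hs2m, him2⟩
          have hcard2 : ({s, s2} : Finset ℂ).card = 2 := by
            rw [Finset.card_insert_of_notMem (by simp [h12]), Finset.card_singleton]
          have h3 : ∑ x ∈ ({s, s2} : Finset ℂ), 1 ≤ M F Z γ := by
            unfold M
            calc ∑ x ∈ ({s, s2} : Finset ℂ), 1 ≤ ∑ x ∈ ({s, s2} : Finset ℂ), mult F x :=
                  Finset.sum_le_sum fun x hx => hpos x (Finset.mem_filter.mp (hsub hx)).1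
              _ ≤ _ := Finset.sum_le_sum_of_subset_of_nonneg hsub fun _ _ _ => Nat.zero_le _
          rw [Finset.sum_const, hcard2] at h3
          simpa using h3
  rw [hNN, ← hcard]
  have h1 : GA.card = ∑ γ ∈ S, (if γ ∈ GA then 1 else 0) := card_ite (Finset.filter_subset _ _)
  have h2 : (S \ GB).card = ∑ γ ∈ S, (if γ ∈ GB then 0 else 1) := card_sdiff_ite S GB
  rw [h1, h2, Finset.mul_sum, ← Finset.sum_add_distrib]
  exact Finset.sum_le_sum hkey

lemma starts_mono {S S' G G' : Set ℝ} {m : ℕ} {L t : ℝ} (h : Starts S G m L t) (hG : G ⊆ G')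
    (hS : S' ⊆ S) : Starts S' G' m L t := by
  obtain ⟨u, h1, h2, h3, h4, h5⟩ := h
  exact ⟨u, h1, h2, fun j => hG (h3 j), fun s hs => h4 s (hS hs), h5⟩

/-- the two lower bounds for the number of runs in a window -/
theorem runs_window (hF : GoodL F) {a b : ℝ} (ha : 1 ≤ a) (hab : a ≤ b) (m : ℕ) {L : ℝ}
    (hL : 0 < L) :
    (Ns F a b : ℝ) - m * (((NN F a b : ℝ) - Ns F a b) / 2 + 1) - m * (b - a) / L ≤
        ({t : ℝ | RunA F m L a b t}.ncard : ℝ) ∧
    (Ns F a b : ℝ) - ((NN F a b : ℝ) - Ns F a b) / 2 - m * (((NN F a b : ℝ) - Ns F a b) / 2 + 1)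
        - m * (b - a) / L ≤ ({t : ℝ | RunB F m L a b t}.ncard : ℝ) := by
  classical
  obtain ⟨S, GA, GB, hS, hGA, hGB, hAS, hBA, hcard, hcount⟩ := core hF (b := b) ha
  have hSab : ∀ s ∈ S, a < s ∧ s ≤ b := by
    intro γ hγ
    obtain ⟨s, hs, h⟩ := (hS γ).mp hγ
    rw [← h]
    exact ⟨hs.2.2.1, hs.2.2.2.1⟩
  have hfinA : ∀ P : ℝ → Prop, (∀ t, P t → t ∈ GA) → {t : ℝ | P t}.Finite := fun P hP =>
    (GA.finite_toSet).subset hP
  have hSG : (S \ GA).card ≤ (S \ GB).card := Finset.card_le_card (Finset.sdiff_subset_sdiff le_rfl hBA)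
  have hc : (Ns F a b : ℝ) + 2 * ((S \ GB).card : ℝ) ≤ NN F a b := by exact_mod_cast hcount
  have hSG' : ((S \ GA).card : ℝ) ≤ (S \ GB).card := by exact_mod_cast hSG
  have hm : (0 : ℝ) ≤ m := Nat.cast_nonneg m
  constructor
  · have h1 := Runs.count S GA hAS a b hSab hab m L hL
    rw [hcard] at h1
    have h2 : {t : ℝ | Starts (S : Set ℝ) (GA : Set ℝ) m L t}.ncard ≤ {t : ℝ | RunA F m L a b t}.ncard := by
      refine Set.ncard_le_ncard ?_ (hfinA _ ?_)
      · rintro t ⟨u, h3, h4, h5, h6, h7⟩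
        refine ⟨u, h3, h4, ?_, ?_, fun j => ?_, fun s a1 a2 a3 a4 a5 => ?_, h7⟩
        · exact (hSab _ (hAS (h5 0))).1
        · exact (hSab _ (hAS (h5 _))).2
        · have := (hGA (u j)).mp (h5 j)
          exact ⟨this.1.2.2.2.2, this.2⟩
        · have hs : s ∈ zset F a b := ⟨a2, a3, lt_of_lt_of_le (hSab _ (hAS (h5 0))).1 a4,
            a5.trans (hSab _ (hAS (h5 _))).2, a1⟩
          obtain ⟨j, hj⟩ := h6 s.im ((hS _).mpr ⟨s, hs, rfl⟩) a4 a5
          exact ⟨j, hj.symm⟩
      · rintro t ⟨u, h3, h4, h5, h5', h6, -⟩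
        have h7 := h6 0
        rw [hGA, ← h4]
        have h8 : u 0 ≤ u (Fin.last m) := h3.monotone (Fin.zero_le _)
        refine ⟨⟨by rw [half_re]; norm_num, by rw [half_re]; norm_num, by rw [half_im]; exact h5,
          by rw [half_im]; linarith, h7.1⟩, h7.2⟩
    have h3 : ({t : ℝ | Starts (S : Set ℝ) (GA : Set ℝ) m L t}.ncard : ℝ) ≤
        ({t : ℝ | RunA F m L a b t}.ncard : ℝ) := by exact_mod_cast h2
    have h4 : ((S \ GA).card : ℝ) ≤ ((NN F a b : ℝ) - Ns F a b) / 2 := by linarith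
    have h5 : (m : ℝ) * (((S \ GA).card : ℝ) + 1) ≤ m * (((NN F a b : ℝ) - Ns F a b) / 2 + 1) :=
      mul_le_mul_of_nonneg_left (by linarith) hm
    linarith
  · have h1 := Runs.count S GB (hBA.trans hAS) a b hSab hab m L hL
    have h2 : {t : ℝ | Starts (S : Set ℝ) (GB : Set ℝ) m L t}.ncard ≤ {t : ℝ | RunB F m L a b t}.ncard := by
      refine Set.ncard_le_ncard ?_ (hfinA _ ?_)
      · rintro t ⟨u, h3, h4, h5, h6, h7⟩
        refine ⟨u, h3, h4, ?_, ?_, fun j => ?_, fun s a1 a2 a3 a4 a5 => ?_, h7⟩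
        · exact (hSab _ (hAS (hBA (h5 0)))).1
        · exact (hSab _ (hAS (hBA (h5 _)))).2
        · have := (hGA (u j)).mp (hBA (h5 j))
          exact ⟨this.1.2.2.2.2, this.2⟩
        · have hs : s ∈ zset F a b := ⟨a2, a3, lt_of_lt_of_le (hSab _ (hAS (hBA (h5 0)))).1 a4,
            a5.trans (hSab _ (hAS (hBA (h5 _)))).2, a1⟩
          obtain ⟨j, hj⟩ := h6 s.im ((hS _).mpr ⟨s, hs, rfl⟩) a4 a5
          exact ⟨j, ((hGB (u j)).mp (h5 j)).2 s hs hj.symm⟩
      · rintro t ⟨u, h3, h4, h5, h5', h6, -⟩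
        have h7 := h6 0
        rw [hGA, ← h4]
        have h8 : u 0 ≤ u (Fin.last m) := h3.monotone (Fin.zero_le _)
        refine ⟨⟨by rw [half_re]; norm_num, by rw [half_re]; norm_num, by rw [half_im]; exact h5,
          by rw [half_im]; linarith, h7.1⟩, h7.2⟩
    have h3 : ({t : ℝ | Starts (S : Set ℝ) (GB : Set ℝ) m L t}.ncard : ℝ) ≤
        ({t : ℝ | RunB F m L a b t}.ncard : ℝ) := by exact_mod_cast h2
    have h4 : ((S \ GB).card : ℝ) ≤ ((NN F a b : ℝ) - Ns F a b) / 2 := by linarith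
    have h5 : (m : ℝ) * (((S \ GB).card : ℝ) + 1) ≤ m * (((NN F a b : ℝ) - Ns F a b) / 2 + 1) :=
      mul_le_mul_of_nonneg_left (by linarith) hm
    have h6 : Ns F a b ≤ GB.card + (S \ GB).card := by
      rw [← hcard, Finset.card_sdiff_of_subset (hBA.trans hAS)]
      have := Finset.card_le_card hAS
      have := Finset.card_le_card (hBA.trans hAS)
      omega
    have h7 : (Ns F a b : ℝ) ≤ GB.card + (S \ GB).card := by exact_mod_cast h6
    linarith

/-- from a lower bound for the simple zeros to lower bounds for the runs (pure arithmetic) -/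
lemma arith {Ns NN m c q x : ℝ} (hm : 0 ≤ m) (h : q * NN - c ≤ Ns) :
    (q - m * ((1 - q) / 2)) * NN - m * x - (1 + m / 2) * c - m ≤
      Ns - m * ((NN - Ns) / 2 + 1) - m * x := by
  have h1 : (1 + m / 2) * (q * NN - c) ≤ (1 + m / 2) * Ns :=
    mul_le_mul_of_nonneg_left h (by positivity)
  nlinarith

lemma arith' {Ns NN m c q x : ℝ} (hm : 0 ≤ m) (h : q * NN - c ≤ Ns) :
    (q - (m + 1) * ((1 - q) / 2)) * NN - m * x - (3 / 2 + m / 2) * c - m ≤
      Ns - (NN - Ns) / 2 - m * ((NN - Ns) / 2 + 1) - m * x := by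
  have h1 : (3 / 2 + m / 2) * (q * NN - c) ≤ (3 / 2 + m / 2) * Ns :=
    mul_le_mul_of_nonneg_left h (by positivity)
  nlinarith

end Pool.Agent.TH299.RunsL
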