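import Pool.Agent.TH299.RunsL
import Pool.Agent.H295R2.SI.Fin
import Pool.Agent.H370R2.Expl3

/-!
# Runs of simple critical zeros of zeta
-/

open Complex Filter Topology Finset

namespace Pool.Agent.TH299.RunsL

open H370

/-- passage to a window starting at `0` -/
lemma NN_zero_le {F : ℂ → ℂ} (hF : GoodL F) (hfin : ∀ T : ℝ, (zset F 0 T).Finite) {X : ℝ}
    (hX : 1 ≤ X) : NN F 0 X = NN F 0 1 + NN F 1 X := by
  unfold NN
  rw [← finsum_mem_union]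
  · have hset : zset F 0 X = zset F 0 1 ∪ zset F 1 X := by
      ext s
      simp only [zset, Set.mem_ofPred_eq, Set.mem_union]
      constructor
      · rintro ⟨a1, a2, a3, a4, a5⟩
        rcases le_or_gt s.im 1 with h1 | h1
        · exact Or.inl ⟨a1, a2, a3, h1, a5⟩
        · exact Or.inr ⟨a1, a2, h1, a4, a5⟩
      · rintro (⟨a1, a2, a3, a4, a5⟩ | ⟨a1, a2, a3, a4, a5⟩)
        · exact ⟨a1, a2, a3, a4.trans hX, a5⟩
        · exact ⟨a1, a2, by linarith, a4, a5⟩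
    rw [hset]
  · rw [Set.disjoint_left]
    rintro s ⟨a1, a2, a3, a4, a5⟩ ⟨b1, b2, b3, b4, b5⟩
    linarith
  · exact hfin 1
  · exact zset_finite hF 1 X le_rfl

lemma Ns_zero_le {F : ℂ → ℂ} (hF : GoodL F) (hfin : ∀ T : ℝ, (zset F 0 T).Finite) {X : ℝ} :
    Ns F 0 X ≤ Ns F 0 1 + Ns F 1 X := by
  unfold Ns
  refine le_trans (Set.ncard_le_ncard (t := {s : ℂ | s ∈ zset F 0 1 ∧ s.re = 1 / 2 ∧ mult F s = 1} ∪
    {s : ℂ | s ∈ zset F 1 X ∧ s.re = 1 / 2 ∧ mult F s = 1}) ?_ ?_) (Set.ncard_union_le _ _)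
  · rintro s ⟨⟨a1, a2, a3, a4, a5⟩, a6, a7⟩
    rcases le_or_gt s.im 1 with h1 | h1
    · exact Or.inl ⟨⟨a1, a2, a3, h1, a5⟩, a6, a7⟩
    · exact Or.inr ⟨⟨a1, a2, h1, a4, a5⟩, a6, a7⟩
  · exact ((hfin 1).subset fun s hs => hs.1).union
      ((zset_finite hF 1 X le_rfl).subset fun s hs => hs.1)

lemma NN_zero_tendsto {F : ℂ → ℂ} (hF : GoodL F) (hfin : ∀ T : ℝ, (zset F 0 T).Finite) (B : ℝ) :
    ∃ X0 : ℝ, 1 ≤ X0 ∧ ∀ X : ℝ, X0 ≤ X → B ≤ (NN F 0 X : ℝ) := by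
  obtain ⟨T1, hT1⟩ := ((NN_tendsto hF).eventually_ge_atTop B).exists_forall_of_atTop
  refine ⟨max 2 (2 * T1), by linarith [le_max_left (2 : ℝ) (2 * T1)], fun X hX => ?_⟩
  have h1 : 2 ≤ X := (le_max_left _ _).trans hX
  have h2 : 2 * T1 ≤ X := (le_max_right _ _).trans hX
  have h3 := hT1 (X / 2) (by linarith)
  rw [show 2 * (X / 2) = X by ring] at h3
  have h4 := NN_mono hF (show (1 : ℝ) ≤ 1 by norm_num) (show 1 ≤ X / 2 by linarith) (le_refl X)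
  have h5 := NN_zero_le hF hfin (show 1 ≤ X by linarith)
  have h6 : (NN F (X / 2) X : ℝ) ≤ NN F 0 X := by
    have : NN F (X / 2) X ≤ NN F 0 X := by omega
    exact_mod_cast this
  linarith

/-- runs from `0` for any good `F` with a lower bound for the simple zeros -/
theorem runs_zero {F : ℂ → ℂ} (hF : GoodL F) (hfin : ∀ T : ℝ, (zset F 0 T).Finite) {q X0 : ℝ}
    (hq : ∀ X : ℝ, X0 ≤ X → q * (NN F 0 X : ℝ) ≤ (Ns F 0 X : ℝ)) (m : ℕ) {ε : ℝ} (hε : 0 < ε) :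
    ∃ T0 : ℝ, ∀ T : ℝ, T0 ≤ T → ∀ A : ℝ, 0 < A →
      (q - m * ((1 - q) / 2) - m / A - ε) * (NN F 0 T : ℝ) ≤
        ({t : ℝ | RunA F m (A * T / NN F 0 T) 1 T t}.ncard : ℝ) ∧
      (q - (m + 1) * ((1 - q) / 2) - m / A - ε) * (NN F 0 T : ℝ) ≤
        ({t : ℝ | RunB F m (A * T / NN F 0 T) 1 T t}.ncard : ℝ) := by
  have hm : (0 : ℝ) ≤ m := Nat.cast_nonneg m
  set c0 : ℝ := (Ns F 0 1 : ℝ) with hc0
  have hc00 : 0 ≤ c0 := Nat.cast_nonneg _
  set d0 : ℝ := (NN F 0 1 : ℝ) with hd0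
  have hd00 : 0 ≤ d0 := Nat.cast_nonneg _
  obtain ⟨X1, hX1, hX1'⟩ := NN_zero_tendsto hF hfin
    (max 1 (((3 / 2 + m / 2) * c0 + m) / ε))
  refine ⟨max X0 (max X1 2), fun T hT A hA => ?_⟩
  have hT0 : X0 ≤ T := (le_max_left _ _).trans hT
  have hT1 : X1 ≤ T := ((le_max_left _ _).trans (le_max_right _ _)).trans hT
  have hT2 : 2 ≤ T := ((le_max_right _ _).trans (le_max_right _ _)).trans hT
  have hbig := hX1' T hT1
  have hN1 : (1 : ℝ) ≤ NN F 0 T := (le_max_left _ _).trans hbig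
  have hN2 : ((3 / 2 + m / 2) * c0 + m) / ε ≤ NN F 0 T := (le_max_right _ _).trans hbig
  rw [div_le_iff₀ hε] at hN2
  have hL : 0 < A * T / (NN F 0 T : ℝ) := by positivity
  obtain ⟨h1, h2⟩ := runs_window hF (show (1 : ℝ) ≤ 1 by norm_num) (show 1 ≤ T by linarith) m hL
  have h3 : (NN F 0 T : ℝ) = d0 + NN F 1 T := by
    rw [NN_zero_le hF hfin (show 1 ≤ T by linarith)]; push_cast; rfl
  have h4 : (Ns F 0 T : ℝ) ≤ c0 + Ns F 1 T := by
    have := Ns_zero_le hF hfin (X := T)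
    rw [hc0]
    exact_mod_cast this
  have h5 := hq T hT0
  have h6 : (m : ℝ) * (T - 1) / (A * T / (NN F 0 T : ℝ)) ≤ m * ((NN F 0 T : ℝ) / A) := by
    rw [div_le_iff₀ hL]
    have : (m : ℝ) * ((NN F 0 T : ℝ) / A) * (A * T / (NN F 0 T : ℝ)) = m * T := by
      field_simp
    rw [this]
    exact mul_le_mul_of_nonneg_left (by linarith) hm
  have h7 : (m : ℝ) / A * (NN F 0 T : ℝ) = m * ((NN F 0 T : ℝ) / A) := by ring
  have e1 : (q - m * ((1 - q) / 2) - m / A - ε) * (NN F 0 T : ℝ) =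
      (q - m * ((1 - q) / 2)) * (NN F 0 T : ℝ) - m * ((NN F 0 T : ℝ) / A) - ε * (NN F 0 T : ℝ) := by
    rw [← h7]; ring
  have e2 : (q - (m + 1) * ((1 - q) / 2) - m / A - ε) * (NN F 0 T : ℝ) =
      (q - (m + 1) * ((1 - q) / 2)) * (NN F 0 T : ℝ) - m * ((NN F 0 T : ℝ) / A) -
        ε * (NN F 0 T : ℝ) := by
    rw [← h7]; ring
  have h8 : q * (NN F 0 T : ℝ) - c0 ≤ (Ns F 1 T : ℝ) := by linarith
  have a1 := arith (x := (NN F 0 T : ℝ) / A) hm h8
  have a2 := arith' (x := (NN F 0 T : ℝ) / A) hm h8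
  have hNN1 : (NN F 1 T : ℝ) ≤ NN F 0 T := by linarith
  have hmm : (m : ℝ) * (((NN F 1 T : ℝ) - Ns F 1 T) / 2 + 1) ≤
      m * (((NN F 0 T : ℝ) - Ns F 1 T) / 2 + 1) := mul_le_mul_of_nonneg_left (by linarith) hm
  have hmc : 0 ≤ (m : ℝ) * c0 := by positivity
  constructor
  · rw [e1]; linarith
  · rw [e2]; linarith

/-- the number of zeros in a short interval tends to infinity -/
lemma NN_short_large {F : ℂ → ℂ} (hF : GoodL F) {h : ℝ} (h0 : 0 < h) (h1 : h ≤ 1) (B : ℝ) :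
    ∃ T0 : ℝ, 1 ≤ T0 ∧ ∀ T : ℝ, T0 ≤ T → ∀ H : ℝ, T ^ h ≤ H → H ≤ T → B ≤ (NN F T (T + H) : ℝ) := by
  obtain ⟨C, hC, hcs⟩ := H965SI.countShort F hF
  -- eventually `T ^ h ≥ log T ^ 2 + 3 + B` and `log T ≥ 2π (2 C + 1)`
  have hpi := Real.pi_pos
  have e1 : ∀ᶠ T : ℝ in atTop, 2 * Real.pi * (2 * C + 1) ≤ Real.log T :=
    Real.tendsto_log_atTop.eventually_ge_atTop _
  have e2 : ∀ᶠ T : ℝ in atTop, (Real.log T) ^ 2 ≤ T ^ h := by
    have h3 := isLittleO_log_rpow_rpow_atTop (s := h) 2 h0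
    have h4 := h3.bound (show (0 : ℝ) < 1 by norm_num)
    filter_upwards [h4, eventually_ge_atTop 1] with T hT hT1
    rwa [one_mul, Real.rpow_two, Real.norm_of_nonneg (sq_nonneg _), Real.norm_of_nonneg
      (Real.rpow_nonneg (by linarith) _)] at hT
  have e3 : ∀ᶠ T : ℝ in atTop, |B| + 3 ≤ T ^ h := (tendsto_rpow_atTop h0).eventually_ge_atTop _
  obtain ⟨T1, hT1⟩ := (e1.and (e2.and e3)).exists_forall_of_atTop
  refine ⟨max T1 10, by linarith [le_max_right T1 10], fun T hT H hH1 hH2 => ?_⟩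
  obtain ⟨a1, a2, a3⟩ := hT1 T ((le_max_left _ _).trans hT)
  have hT10 : 10 ≤ T := (le_max_right _ _).trans hT
  have hB := le_abs_self B
  have hB0 := abs_nonneg B
  have h3 := (hcs T hT10 H (by linarith) hH2 T (T + H) le_rfl (by linarith) (by linarith) le_rfl).1
  have h4 := (abs_le.mp h3).1
  have h5 : H * (2 * C + 1) ≤ H * Real.log T / (2 * Real.pi) := by
    rw [le_div_iff₀ (by positivity)]
    nlinarith
  have h6 : C * (H + (Real.log T) ^ 2) ≤ C * (H + H) := by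
    apply mul_le_mul_of_nonneg_left _ hC.le
    linarith
  nlinarith

/-- runs in short intervals -/
theorem runs_short {F : ℂ → ℂ} (hF : GoodL F) {h : ℝ} (h0 : 0 < h) (h1 : h ≤ 1) (m : ℕ) {ε : ℝ}
    (hε : 0 < ε) :
    ∃ T0 : ℝ, 1 ≤ T0 ∧ ∀ T : ℝ, T0 ≤ T → ∀ H : ℝ, T ^ h ≤ H → H ≤ T → ∀ A : ℝ, 0 < A →
      (2 - H295SI.cc h - m * ((H295SI.cc h - 1) / 2) - m / A - ε) * (NN F T (T + H) : ℝ) ≤
        ({t : ℝ | RunA F m (A * H / NN F T (T + H)) T (T + H) t}.ncard : ℝ) ∧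
      (2 - H295SI.cc h - (m + 1) * ((H295SI.cc h - 1) / 2) - m / A - ε) * (NN F T (T + H) : ℝ) ≤
        ({t : ℝ | RunB F m (A * H / NN F T (T + H)) T (T + H) t}.ncard : ℝ) := by
  have hm : (0 : ℝ) ≤ m := Nat.cast_nonneg m
  set δ : ℝ := ε / (2 * (3 / 2 + m / 2)) with hδ
  have hδ0 : 0 < δ := by positivity
  obtain ⟨T1, hT11, hT1⟩ := H295SI.mainShort F hF h δ h0 h1 hδ0
  obtain ⟨T2, hT22, hT2⟩ := NN_short_large hF h0 h1 (max 1 (m / (ε / 2)))
  refine ⟨max T1 T2, hT11.trans (le_max_left _ _), fun T hT H hH1 hH2 A hA => ?_⟩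
  have hTT1 : T1 ≤ T := (le_max_left _ _).trans hT
  have hTT2 : T2 ≤ T := (le_max_right _ _).trans hT
  have hTge : 1 ≤ T := hT11.trans hTT1
  have hHpos : 0 < H := lt_of_lt_of_le (Real.rpow_pos_of_pos (by linarith) _) hH1
  have hbig := hT2 T hTT2 H hH1 hH2
  have hN1 : (1 : ℝ) ≤ NN F T (T + H) := (le_max_left _ _).trans hbig
  have hN2 : (m : ℝ) / (ε / 2) ≤ NN F T (T + H) := (le_max_right _ _).trans hbig
  rw [div_le_iff₀ (by positivity)] at hN2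
  have hL : 0 < A * H / (NN F T (T + H) : ℝ) := by positivity
  obtain ⟨b1, b2⟩ := runs_window hF hTge (show T ≤ T + H by linarith) m hL
  have h5 := (hT1 T hTT1 H hH1 hH2).1
  have h6 : (m : ℝ) * (T + H - T) / (A * H / (NN F T (T + H) : ℝ)) =
      m * ((NN F T (T + H) : ℝ) / A) := by
    field_simp
    ring
  rw [h6] at b1 b2
  have h7 : (m : ℝ) / A * (NN F T (T + H) : ℝ) = m * ((NN F T (T + H) : ℝ) / A) := by ring
  set N := (NN F T (T + H) : ℝ) with hN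
  set c := H295SI.cc h with hc
  have h8 : (2 - c - δ) * N - 0 ≤ (Ns F T (T + H) : ℝ) := by linarith
  have a1 := arith (x := N / A) hm h8
  have a2 := arith' (x := N / A) hm h8
  have hd : (3 / 2 + m / 2) * δ = ε / 2 := by
    rw [hδ]; field_simp
  have hd1 : (1 + (m : ℝ) / 2) * δ ≤ ε / 2 := by
    rw [← hd]
    apply mul_le_mul_of_nonneg_right _ hδ0.le
    linarith
  constructor
  · have : (2 - c - m * ((c - 1) / 2) - m / A - ε) * N ≤
        (2 - c - δ - m * ((1 - (2 - c - δ)) / 2)) * N - m * (N / A) - (1 + m / 2) * 0 - m := by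
      rw [← h7]
      have h9 : (2 - c - m * ((c - 1) / 2) - m / A - ε) * N =
        (2 - c - δ - m * ((1 - (2 - c - δ)) / 2)) * N - m / A * N - (1 + m / 2) * 0 +
          ((1 + m / 2) * δ - ε) * N := by ring
      rw [h9]
      nlinarith
    linarith
  · have : (2 - c - (m + 1) * ((c - 1) / 2) - m / A - ε) * N ≤
        (2 - c - δ - (m + 1) * ((1 - (2 - c - δ)) / 2)) * N - m * (N / A) - (3 / 2 + m / 2) * 0 - m := by
      rw [← h7]
      have h9 : (2 - c - (m + 1) * ((c - 1) / 2) - m / A - ε) * N =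
        (2 - c - δ - (m + 1) * ((1 - (2 - c - δ)) / 2)) * N - m / A * N - (3 / 2 + m / 2) * 0 +
          ((3 / 2 + m / 2) * δ - ε) * N := by ring
      rw [h9]
      nlinarith
    linarith

/-- the numerical proportion of simple critical zeros of zeta -/
theorem zeta_prop : ∃ X0 : ℝ, ∀ X : ℝ, X0 ≤ X →
    0.6726 * (NN riemannZeta 0 X : ℝ) ≤ (Ns riemannZeta 0 X : ℝ) := by
  obtain ⟨T0, hT0⟩ := H370.Expl.main_numeric riemannZeta H370.good_zeta
  exact H370.dyadic_zero H370.good_zeta H370.zeta_zeros_finite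
    (fun a b => H370.Ns riemannZeta a b)
    (fun a b c h1 h2 h3 => H370.Ns_add H370.good_zeta h1 h2 h3)
    (fun a X ha => Set.ncard_le_ncard (fun s hs => ⟨H370.zset_mono _ ha le_rfl hs.1, hs.2⟩)
      ((H370.zeta_zeros_finite X).subset fun s hs => hs.1))
    0.672605 0.6726 T0 (by norm_num) (by norm_num) (fun T hT => (hT0 T hT).1)

end Pool.Agent.TH299.RunsL
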